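import Pool.Agent.Helper5.BD.Defs

/-!
# Crossing systems with a sparse orientation, module D3: short counts
-/

noncomputable section

open Finset Helper5.CR Classical

namespace Helper5.BD

variable {V E X : Type} [Fintype V] [Fintype E] [Fintype X] {C : CSys V E X} {d : ℕ}

private theorem mf {α : Type} [Fintype α] {P : α → Prop} {i : DecidablePred P} {x : α} :
    x ∈ @Finset.filter α P i Finset.univ ↔ P x := by
  rw [Finset.mem_filter]
  exact ⟨fun h => h.2, fun h => ⟨Finset.mem_univ _, h⟩⟩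

/-- D3. -/
theorem w_le (O : Ori C d) (p : V × V) : O.w p ≤ (O.com p).card ^ 2 := by
  unfold Ori.w Ori.cnt
  rw [sq, ← Finset.card_product]
  refine Finset.card_le_card_of_injOn (fun x => (O.lo (C.e₁ x), O.lo (C.e₂ x))) ?_ ?_
  · intro x hx
    obtain ⟨hA, h1, h2⟩ := mf.1 (Finset.mem_coe.1 hx)
    obtain ⟨a1, a2, -⟩ := hA
    rw [h2] at a1
    rw [h1] at a2
    refine Finset.mem_coe.2 (Finset.mem_product.2 ⟨?_, ?_⟩)
    · exact Finset.mem_filter.2 ⟨Finset.mem_univ _, ⟨_, rfl, h1⟩, a1⟩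
    · exact Finset.mem_filter.2 ⟨Finset.mem_univ _, a2, ⟨_, rfl, h2⟩⟩
  · intro x hx y hy hxy
    obtain ⟨-, h1, h2⟩ := mf.1 (Finset.mem_coe.1 hx)
    obtain ⟨-, g1, g2⟩ := mf.1 (Finset.mem_coe.1 hy)
    have l1 : O.lo (C.e₁ x) = O.lo (C.e₁ y) := congrArg Prod.fst hxy
    have l2 : O.lo (C.e₂ x) = O.lo (C.e₂ y) := congrArg Prod.snd hxy
    exact C.once x y (Or.inl ⟨O.uniq _ _ l1 (h1.trans g1.symm), O.uniq _ _ l2 (h2.trans g2.symm)⟩)

/-- D3. -/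
theorem sum_w (O : Ori C d) : ∑ p, O.w p = Ori.cnt (fun x => O.AB x) := by
  unfold Ori.w Ori.cnt
  rw [Finset.card_eq_sum_card_fiberwise (f := fun x => (O.hi (C.e₁ x), O.hi (C.e₂ x)))
    (t := (Finset.univ : Finset (V × V))) (fun x _ => Finset.mem_coe.2 (Finset.mem_univ _))]
  refine Finset.sum_congr rfl fun p _ => ?_
  congr 1
  ext x
  simp only [Finset.mem_filter, Finset.mem_univ, true_and, Prod.ext_iff]

/-- D3. -/
theorem w_pos (O : Ori C d) (p : V × V) (h : O.w p ≠ 0) : p.1 ≠ p.2 ∧ ¬ O.adj p.1 p.2 := by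
  unfold Ori.w Ori.cnt at h
  obtain ⟨x, hx⟩ := Finset.card_ne_zero.1 h
  obtain ⟨hA, h1, h2⟩ := mf.1 hx
  obtain ⟨-, -, a3⟩ := hA
  rw [h1, h2] at a3
  refine ⟨?_, a3⟩
  rw [← h1, ← h2]
  rcases O.ends (C.e₁ x) with ⟨s1, t1⟩ | ⟨s1, t1⟩ <;> rcases O.ends (C.e₂ x) with ⟨s2, t2⟩ | ⟨s2, t2⟩
  · rw [← t1, ← t2]; exact C.h4 x
  · rw [← t1, ← s2]; exact C.h3 x
  · rw [← s1, ← t2]; exact C.h2 x
  · rw [← s1, ← s2]; exact C.h1 x

end Helper5.BD
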